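import Pool.Agent.H75.L.W662.CB.Stmts

set_option autoImplicit false

open MeasureTheory Filter Topology Complex
open scoped InnerProductSpace ENNReal

namespace Pool.Agent.W766.CB
open Pool.Agent.W662.CB

noncomputable section

variable {H : Type} [NormedAddCommGroup H] [InnerProductSpace ℂ H] [CompleteSpace H]

/-- the subspace `N ξ` -/
def K0 (N : VonNeumannAlgebra H) (ξ : H) : Submodule ℂ H where
  carrier := {v | ∃ b : H →L[ℂ] H, b ∈ N ∧ b ξ = v}
  add_mem' := by
    rintro _ _ ⟨b, hb, rfl⟩ ⟨b', hb', rfl⟩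
    exact ⟨b + b', add_mem hb hb', rfl⟩
  zero_mem' := ⟨0, zero_mem N, rfl⟩
  smul_mem' := by
    rintro c _ ⟨b, hb, rfl⟩
    refine ⟨c • b, ?_, rfl⟩
    have hb' : b ∈ N.toStarSubalgebra := hb
    exact N.toStarSubalgebra.smul_mem hb' c

theorem inner_star_apply (b y : H →L[ℂ] H) (ξ : H) :
    ⟪b ξ, y ξ⟫_ℂ = vst ξ (star b * y) := by
  unfold vst
  rw [ContinuousLinearMap.mul_apply, ContinuousLinearMap.star_eq_adjoint,
    ContinuousLinearMap.adjoint_inner_right]

theorem a8b : S_A8b := by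
  intro H _ _ _ M N ξ E hNM _ hE hφ
  refine ⟨(K0 N ξ).topologicalClosure.starProjection,
    isSelfAdjoint_starProjection _, ?_⟩
  intro x hx
  refine Submodule.eq_starProjection_of_mem_orthogonal ?_ ?_
  · exact (K0 N ξ).le_topologicalClosure ⟨E x, hE.mem x hx, rfl⟩
  · rw [Submodule.orthogonal_closure, Submodule.mem_orthogonal]
    rintro _ ⟨b, hb, rfl⟩
    have hsb : star b ∈ N := star_mem hb
    have h1 : star b * x ∈ M := mul_mem (hNM _ hsb) hx
    rw [inner_sub_right, inner_star_apply, inner_star_apply, ← hE.left (star b) x hsb hx,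
      hφ _ h1, sub_self]

end

end Pool.Agent.W766.CB
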